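import Pool.Agent.Q135.Fcc.Count3

/-!
# Touching triplets in packings of `n_k = (2 k^3 + k) / 3` unit balls

The octahedral piece of the face-centred cubic lattice has `n_k` balls and
`t_k = 4 (k - 1) k (4 k - 5) / 3` touching triplets.  For no `k ≥ 4` is this the maximum: cutting
off three vertices of the octahedron loses `12` touching triplets, and a triangle of three balls
put on a facet brings `13` new ones.
-/

set_option autoImplicit false

namespace Pool.Agent.Results.MP_b59a08_co.TripletsDisproof

open Finset Metric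

/-- The closed unit balls centred at the points of the finite set `P` of Euclidean three-space form
a packing: any two of them have disjoint interiors. -/
def IsPacking (P : Finset (EuclideanSpace ℝ (Fin 3))) : Prop :=
  (P : Set (EuclideanSpace ℝ (Fin 3))).Pairwise fun x y =>
    Disjoint (interior (closedBall x 1)) (interior (closedBall y 1))

open Classical in
/-- The number of touching triplets: sets of three balls of the packing with pairwise distances of
the centres equal to `2`. -/
noncomputable def triplets (P : Finset (EuclideanSpace ℝ (Fin 3))) : ℕ :=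
  ((P.powersetCard 3).filter fun s : Finset (EuclideanSpace ℝ (Fin 3)) =>
    ∀ x ∈ s, ∀ y ∈ s, x ≠ y → dist x y = 2).card

/-- For every `k ≥ 4` there is a packing of `n_k` unit balls with more than `t_k` touching
triplets; hence there is no `k₃` such that for all `k ≥ k₃` every packing of `n_k` unit balls has at
most `t_k` touching triplets. -/
theorem result :
    (∀ k : ℕ, 4 ≤ k → ∃ P : Finset (EuclideanSpace ℝ (Fin 3)), IsPacking P ∧
      (P.card : ℚ) = (2 * k ^ 3 + k) / 3 ∧
      (4 / 3 * (k - 1) * k * (4 * k - 5) : ℚ) < triplets P) ∧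
    ¬ ∃ k₃ : ℕ, 0 < k₃ ∧ ∀ k : ℕ, k₃ ≤ k → ∀ P : Finset (EuclideanSpace ℝ (Fin 3)),
      IsPacking P → (P.card : ℚ) = (2 * k ^ 3 + k) / 3 →
      (triplets P : ℚ) ≤ 4 / 3 * (k - 1) * k * (4 * k - 5) := by
  have main : ∀ k : ℕ, 4 ≤ k → ∃ P : Finset (EuclideanSpace ℝ (Fin 3)), IsPacking P ∧
      (P.card : ℚ) = (2 * k ^ 3 + k) / 3 ∧
      (4 / 3 * (k - 1) * k * (4 * k - 5) : ℚ) < triplets P := by
    intro k hk
    obtain ⟨m, rfl⟩ : ∃ m, k = m + 1 := ⟨k - 1, by omega⟩
    have hm : 3 ≤ m := by omega
    refine ⟨(Q135.Fcc.body m).image Q135.Fcc.emb,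
      Q135.Fcc.isPacking_emb Q135.Fcc.body_sep, ?_, ?_⟩
    · have h := Q135.Fcc.card_body (m := m) (by omega)
      rw [Q135.Fcc.card_emb]
      have h' : (3 * (Q135.Fcc.body m).card : ℚ) = 2 * (m + 1) ^ 3 + (m + 1) := by exact_mod_cast h
      push_cast
      linarith
    · have h := Q135.Fcc.touching3 hm
      have h' : (4 * m * (m + 1) * (4 * m - 1) + 3 : ℚ) ≤
          3 * (Q135.Fcc.touching 3 ((Q135.Fcc.body m).image Q135.Fcc.emb) : ℚ) := by
        exact_mod_cast h
      change _ < ((Q135.Fcc.touching 3 ((Q135.Fcc.body m).image Q135.Fcc.emb) : ℕ) : ℚ)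
      push_cast
      nlinarith [h']
  refine ⟨main, ?_⟩
  rintro ⟨k₃, -, h⟩
  obtain ⟨P, hP, hn, ht⟩ := main (k₃ + 4) (by omega)
  exact absurd (h (k₃ + 4) (by omega) P hP hn) (not_le.2 ht)

end Pool.Agent.Results.MP_b59a08_co.TripletsDisproof
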